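import Mathlib
import Pool.Agent.H60.AffineQuartic

open Pool.Agent.H60.AffineQuartic in
/-- For arbitrarily large finite fields `F` there is an irreducible `f` in `F[X,Y]` of total degree
`d = 4` with `d ^ 4 < #F` such that no substitution `X ↦ aY + b` gives an irreducible polynomial. -/
theorem Pool.Agent.Results.MP_46a474_nt.Counter.result (N : ℕ) :
    ∃ (F : Type) (_ : Field F) (_ : Finite F) (f : MvPolynomial (Fin 2) F),
      N < Nat.card F ∧ Irreducible f ∧ f.totalDegree = 4 ∧ f.totalDegree ^ 4 < Nat.card F ∧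
      ∀ a b : F, ¬ Irreducible
        (MvPolynomial.aeval ![Polynomial.C a * Polynomial.X + Polynomial.C b, Polynomial.X] f :
          Polynomial F) := by
  have hcard : Nat.card (GaloisField 2 (2 * (N + 5))) = 2 ^ (2 * (N + 5)) :=
    GaloisField.card 2 _ (by omega)
  have h1 : 2 * (N + 5) < 2 ^ (2 * (N + 5)) := Nat.lt_two_pow_self
  have h2 : 2 ^ 10 ≤ 2 ^ (2 * (N + 5)) := Nat.pow_le_pow_right (by norm_num) (by omega)
  obtain ⟨ω, hω⟩ := exists_omega (N + 5) (by omega)
  refine ⟨GaloisField 2 (2 * (N + 5)), inferInstance, inferInstance,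
    MvPolynomial.X 0 + MvPolynomial.X 1 ^ 4, by omega, irreducible_f _, totalDegree_f _, ?_, ?_⟩
  · rw [totalDegree_f, hcard]; omega
  · intro a b
    simpa using not_irreducible ω hω a b
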